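import Mathlib

/-!
# An odd integer larger than 1155 with perfect deficiency at most 10

The perfect deficiency `pd n` is obtained from `n` by subtracting its divisors in increasing order
as long as this is possible. We show that `n = 815634435 = 3 · 5 · 7 · 11 · 547 · 1291` has
`pd n = 6`; so `1155` is not the largest odd integer with perfect deficiency at most `10`.
-/

set_option autoImplicit false

namespace Pool.Agent.Results.MP_7acd66_nt.LargerOddTerm

/-- One step: subtract `d` from the remainder `r` if this is possible. -/
def step (r d : ℕ) : ℕ := if d ≤ r then r - d else r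

/-- The perfect deficiency of `n`: start with `r = n` and go through the divisors of `n` in
increasing order, subtracting each of them from the remainder if it is not larger than it. -/
def pd (n : ℕ) : ℕ := (n.divisors.sort (· ≤ ·)).foldl step n

/-- The set of the positive integers with perfect deficiency at most `10` (the terms of the
sequence `a`). -/
def terms : Set ℕ := {n | 0 < n ∧ pd n ≤ 10}

/-- The divisors of `815634435` in increasing order. -/
def L : List ℕ := [1, 3, 5, 7, 11, 15, 21, 33, 35, 55, 77, 105, 165, 231, 385, 547, 1155, 1291,
  1641, 2735, 3829, 3873, 6017, 6455, 8205, 9037, 11487, 14201, 18051, 19145, 19365, 27111, 30085,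
  42119, 42603, 45185, 57435, 71005, 90255, 99407, 126357, 135555, 210595, 213015, 298221, 497035,
  631785, 706177, 1491105, 2118531, 3530885, 4943239, 7767947, 10592655, 14829717, 23303841,
  24716195, 38839735, 54375629, 74148585, 116519205, 163126887, 271878145, 815634435]

theorem card_divisors : (Nat.divisors 815634435).card = 64 := by
  have h : (815634435 : ℕ) = 3 * (5 * (7 * (11 * (547 * 1291)))) := by norm_num
  have p3 : Nat.Prime 3 := by norm_num
  have p5 : Nat.Prime 5 := by norm_num
  have p7 : Nat.Prime 7 := by norm_num
  have p11 : Nat.Prime 11 := by norm_num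
  have p547 : Nat.Prime 547 := by norm_num
  have p1291 : Nat.Prime 1291 := by norm_num
  have key : ∀ p : ℕ, p.Prime → p.divisors.card = 2 := by
    intro p hp
    rw [hp.divisors, Finset.card_pair hp.one_lt.ne]
  rw [h, Nat.Coprime.card_divisors_mul (by norm_num), Nat.Coprime.card_divisors_mul (by norm_num),
    Nat.Coprime.card_divisors_mul (by norm_num), Nat.Coprime.card_divisors_mul (by norm_num),
    Nat.Coprime.card_divisors_mul (by norm_num), key 3 p3, key 5 p5, key 7 p7, key 11 p11,
    key 547 p547, key 1291 p1291]

theorem sorted : L.Pairwise (· ≤ ·) := by decide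

theorem nodup : L.Nodup := by decide

theorem dvd : ∀ d ∈ L, d ∣ 815634435 := by decide

theorem length_L : L.length = 64 := by rfl

theorem card_L : L.toFinset.card = 64 := (List.toFinset_card_of_nodup nodup).trans length_L

theorem subset_divisors : L.toFinset ⊆ Nat.divisors 815634435 := by
  intro d hd
  rw [List.mem_toFinset] at hd
  rw [Nat.mem_divisors]
  exact ⟨dvd d hd, by norm_num⟩

theorem divisors_eq : Nat.divisors 815634435 = L.toFinset :=
  (Finset.eq_of_subset_of_card_le subset_divisors (card_divisors.le.trans card_L.ge)).symm

theorem pd_eq : pd 815634435 = 6 := by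
  rw [pd, divisors_eq, (List.toFinset_sort (· ≤ ·) nodup).2 sorted]
  decide +kernel

/-- `1155` is not the largest odd integer with perfect deficiency at most `10`: the odd number
`815634435` has perfect deficiency `6`. -/
theorem result : ∃ n ∈ terms, 1155 < n ∧ Odd n ∧ n = 815634435 ∧ pd n = 6 := by
  refine ⟨815634435, ⟨by norm_num, ?_⟩, by norm_num, by decide, rfl, pd_eq⟩
  rw [pd_eq]
  norm_num

end Pool.Agent.Results.MP_7acd66_nt.LargerOddTerm
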